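import Pool.Agent.N601.TL.Turn

set_option autoImplicit false

/-!
The locking of the mean motions.
-/

namespace Pool.Agent.N601.TL

open Complex Set Filter Topology Pool.Agent.W821.TB

variable {n : ℕ} {m : Fin n → ℝ}

/-- The mean motions near the solution `x` of period `P` are locked: `w a b` is the number of turns which
the vector from `b` to `a` makes in one period, and for all solutions `y` starting near the orbit of `x`
there is a function `s` of the time such that the vector from `b` to `a` makes `w a b * s t` turns between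
the times `0` and `t`, up to a bounded error, for all `t ≥ 0` and for all pairs. -/
def Locked (m : Fin n → ℝ) (x : ℝ → Ph n) (P : ℝ) : Prop :=
  ∃ w : Fin n → Fin n → ℤ, (∀ a b, a ≠ b → turn x a b P = 2 * Real.pi * w a b) ∧
    ∃ U : Set (Ph n), IsOpen U ∧ range x ⊆ U ∧ ∃ C : ℝ,
      ∀ y : ℝ → Ph n, IsSol m (Ici 0) y → y 0 ∈ U → ∃ s : ℝ → ℝ,
        ∀ a b, a ≠ b → ∀ t, 0 ≤ t → |turn y a b t - 2 * Real.pi * w a b * s t| ≤ C

theorem locked {x : ℝ → Ph n} (hx : IsSol m univ x) (hst : LyapunovStable m (range x)) {P : ℝ}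
    (hP : 0 < P) (hper : ∀ t, x (t + P) = x t) : Locked m x P := by
  classical
  choose! w hw using fun (a b : Fin n) (hab : a ≠ b) => winding hx hP hper hab
  refine ⟨w, hw, ?_⟩
  by_cases hall : ∀ a b, a ≠ b → w a b = 0
  · -- all the winding numbers vanish
    have h1 : ∀ r : Fin n × Fin n, ∃ U : Set (Ph n), IsOpen U ∧ range x ⊆ U ∧ ∃ C : ℝ,
        ∀ y : ℝ → Ph n, IsSol m (Ici 0) y → y 0 ∈ U → r.1 ≠ r.2 → ∀ t, 0 ≤ t →
          |turn y r.1 r.2 t| ≤ C := by
      intro r
      by_cases hr : r.1 = r.2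
      · exact ⟨univ, isOpen_univ, subset_univ _, 0, fun y _ _ h => absurd hr h⟩
      · obtain ⟨U, h1, h2, C, h3⟩ := pair_lock hx hP hper hst hr hr (p := 1) (q := 0) (by
          rw [hw _ _ hr, hall _ _ hr]
          simp)
        refine ⟨U, h1, h2, C, fun y hy hy0 _ t ht => ?_⟩
        have := h3 y hy hy0 t ht
        simpa using this
    choose U hU hxU C hC using h1
    refine ⟨⋂ r, U r, isOpen_iInter_of_finite hU, subset_iInter hxU, ∑ r, |C r|,
      fun y hy hy0 => ⟨fun _ => 0, fun a b hab t ht => ?_⟩⟩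
    have h2 := hC (a, b) y hy (mem_iInter.1 hy0 (a, b)) hab t ht
    rw [mul_zero, sub_zero]
    refine h2.trans ((le_abs_self _).trans ?_)
    exact Finset.single_le_sum (f := fun r => |C r|) (fun r _ => abs_nonneg _)
      (Finset.mem_univ (a, b))
  · push Not at hall
    obtain ⟨c, d, hcd, hw0⟩ := hall
    have h1 : ∀ r : Fin n × Fin n, ∃ U : Set (Ph n), IsOpen U ∧ range x ⊆ U ∧ ∃ C : ℝ,
        ∀ y : ℝ → Ph n, IsSol m (Ici 0) y → y 0 ∈ U → r.1 ≠ r.2 → ∀ t, 0 ≤ t →
          |w c d * turn y r.1 r.2 t - w r.1 r.2 * turn y c d t| ≤ C := by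
      intro r
      by_cases hr : r.1 = r.2
      · exact ⟨univ, isOpen_univ, subset_univ _, 0, fun y _ _ h => absurd hr h⟩
      · obtain ⟨U, h1, h2, C, h3⟩ := pair_lock hx hP hper hst hr hcd (p := w c d) (q := w r.1 r.2) (by
          rw [hw _ _ hr, hw _ _ hcd]
          ring)
        exact ⟨U, h1, h2, C, fun y hy hy0 _ t ht => h3 y hy hy0 t ht⟩
    choose U hU hxU C hC using h1
    have hwR : (w c d : ℝ) ≠ 0 := by exact_mod_cast hw0
    have hw1 : 1 ≤ |(w c d : ℝ)| := by
      have : (1 : ℤ) ≤ |w c d| := Int.one_le_abs hw0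
      exact_mod_cast this
    have hpi := Real.pi_pos
    refine ⟨⋂ r, U r, isOpen_iInter_of_finite hU, subset_iInter hxU, ∑ r, |C r|,
      fun y hy hy0 => ⟨fun t => turn y c d t / (2 * Real.pi * w c d), fun a b hab t ht => ?_⟩⟩
    have h2 := hC (a, b) y hy (mem_iInter.1 hy0 (a, b)) hab t ht
    simp only at h2
    have e : turn y a b t - 2 * Real.pi * w a b * (turn y c d t / (2 * Real.pi * w c d)) =
        (w c d * turn y a b t - w a b * turn y c d t) / w c d := by
      field_simp
    rw [e, abs_div]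
    have h3 : |w c d * turn y a b t - w a b * turn y c d t| / |(w c d : ℝ)| ≤
        |w c d * turn y a b t - w a b * turn y c d t| := div_le_self (abs_nonneg _) hw1
    refine h3.trans (h2.trans ((le_abs_self _).trans ?_))
    exact Finset.single_le_sum (f := fun r => |C r|) (fun r _ => abs_nonneg _)
      (Finset.mem_univ (a, b))

theorem locked_rel (hn : 2 ≤ n) (hm : ∀ a, 0 < m a) {x : ℝ → Ph n} (hx : IsSol m univ x)
    (hst : LyapunovStable m (range x)) {T : ℝ} (hT0 : 0 < T) (hT : DistPer x T) :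
    IsRelEq x ∨ ∃ K : ℕ, 1 ≤ K ∧ (∀ t, x (t + 2 * K * T) = x t) ∧ Locked m x (2 * K * T) := by
  rcases final hn hm hx hT0 hT hst with h | ⟨K, hK, -, U, -, hγ, -, h2⟩
  · exact Or.inl h
  · right
    have h3 := h2 x hx (hγ ⟨0, rfl⟩) T hT0 hT
    have hK0 : (0 : ℝ) < K := by exact_mod_cast hK
    exact ⟨K, hK, h3, locked hx hst (by positivity) h3⟩

end Pool.Agent.N601.TL
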