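import Mathlib

set_option autoImplicit false

/-!
Topological part: angles along a closed orbit and along curves near it.
-/

namespace Pool.Agent.N601.TL

open Complex Set Filter Topology

/-- an integer valued continuous function on `[0, ∞)` is constant -/
theorem const_of_int {h : ℝ → ℝ} (hc : ContinuousOn h (Ici 0)) (hi : ∀ t, 0 ≤ t → ∃ j : ℤ, h t = j)
    {t : ℝ} (ht : 0 ≤ t) : h t = h 0 := by
  by_contra hne
  obtain ⟨j, hj⟩ := hi t ht
  obtain ⟨i, hi0⟩ := hi 0 le_rfl
  have hcc : ContinuousOn h (uIcc 0 t) := hc.mono (by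
    rw [uIcc_of_le ht]
    exact fun s hs => hs.1)
  have hij : i ≠ j := by
    intro h1
    apply hne
    rw [hj, hi0, h1]
  have key : ∀ r : ℝ, r ∈ uIcc (h 0) (h t) → ∃ k : ℤ, r = k := by
    intro r hr
    obtain ⟨s, hs, rfl⟩ := intermediate_value_uIcc hcc hr
    rw [uIcc_of_le ht] at hs
    exact hi s hs.1
  rcases lt_or_gt_of_ne hij with h1 | h1
  · have h2 : (i : ℝ) + 1 / 2 ∈ uIcc (h 0) (h t) := by
      have h3 : (i : ℝ) + 1 ≤ j := by exact_mod_cast h1
      rw [hi0, hj, uIcc_of_le (by linarith)]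
      exact ⟨by linarith, by linarith⟩
    obtain ⟨k, hk⟩ := key _ h2
    have h4 : (2 * i + 1 : ℝ) = 2 * k := by linarith
    have h5 : 2 * i + 1 = 2 * k := by exact_mod_cast h4
    omega
  · have h2 : (i : ℝ) - 1 / 2 ∈ uIcc (h 0) (h t) := by
      have h3 : (j : ℝ) + 1 ≤ i := by exact_mod_cast h1
      rw [hi0, hj, uIcc_of_ge (by linarith)]
      exact ⟨by linarith, by linarith⟩
    obtain ⟨k, hk⟩ := key _ h2
    have h4 : (2 * i - 1 : ℝ) = 2 * k := by linarith
    have h5 : 2 * i - 1 = 2 * k := by exact_mod_cast h4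
    omega

variable {X : Type*} [TopologicalSpace X] [NormalSpace X] [T2Space X]

/-- Let `F` be a continuous function with values on the unit circle near the closed curve `x`, with a
continuous angle `l` which depends only on the point of the curve. Then there are a neighbourhood of
the curve and a constant such that the angle of `F` changes by at most this constant along all curves
in the neighbourhood. -/
theorem lock {x : ℝ → X} (hx : Continuous x) {P : ℝ} (hP : 0 < P) (hper : ∀ t, x (t + P) = x t)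
    {O : Set X} (hO : IsOpen O) (hxO : range x ⊆ O) {F : X → ℂ} (hF : ContinuousOn F O)
    (hF1 : ∀ z ∈ O, ‖F z‖ = 1) {l : ℝ → ℝ} (hl : Continuous l)
    (hFl : ∀ t, F (x t) = exp (l t * I)) (hinj : ∀ t t', x t = x t' → l t = l t') :
    ∃ U : Set X, IsOpen U ∧ range x ⊆ U ∧ U ⊆ O ∧ ∃ C : ℝ, ∀ (y : ℝ → X) (r : ℝ → ℝ),
      ContinuousOn y (Ici 0) → ContinuousOn r (Ici 0) → (∀ t, 0 ≤ t → y t ∈ U) →
      (∀ t, 0 ≤ t → F (y t) = exp (r t * I)) → ∀ t, 0 ≤ t → |r t - r 0| ≤ C := by
  classical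
  -- the orbit is compact
  have hrange : range x = x '' Icc 0 P := by
    apply Subset.antisymm
    · rintro _ ⟨t, rfl⟩
      have hp : Function.Periodic x P := hper
      obtain ⟨s, hs, hs2⟩ := hp.exists_mem_Ico₀ hP t
      exact ⟨s, ⟨hs.1, hs.2.le⟩, hs2.symm⟩
    · rintro _ ⟨t, _, rfl⟩
      exact ⟨t, rfl⟩
  have hcomp : IsCompact (range x) := by
    rw [hrange]
    exact isCompact_Icc.image hx
  -- the angle on the orbit
  choose σ hσ using fun z : range x => z.2
  have hσl : ∀ (z : range x) (t : ℝ), x t = z → l (σ z) = l t := fun z t ht =>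
    hinj _ _ ((hσ z).trans ht.symm)
  have hcont : Continuous (fun z : range x => l (σ z)) := by
    rw [continuous_iff_isClosed]
    intro S hS
    have e : (fun z : range x => l (σ z)) ⁻¹' S = Subtype.val ⁻¹' (x '' (Icc 0 P ∩ l ⁻¹' S)) := by
      ext z
      constructor
      · intro hz
        have h1 : (z : X) ∈ x '' Icc 0 P := by rw [← hrange]; exact z.2
        obtain ⟨t, ht, ht2⟩ := h1
        refine ⟨t, ⟨ht, ?_⟩, ht2⟩
        have := hσl z t ht2
        show l t ∈ S
        rw [← this]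
        exact hz
      · rintro ⟨t, ⟨_, ht⟩, ht2⟩
        show l (σ z) ∈ S
        rw [hσl z t ht2]
        exact ht
    rw [e]
    apply IsClosed.preimage continuous_subtype_val
    exact ((isCompact_Icc.inter_right (hS.preimage hl)).image hx).isClosed
  obtain ⟨L, hL⟩ := ContinuousMap.exists_restrict_eq hcomp.isClosed
    (⟨fun z : range x => l (σ z), hcont⟩ : C(range x, ℝ))
  have hLx : ∀ t, L (x t) = l t := by
    intro t
    have h1 := congrArg (fun f : C(range x, ℝ) => f ⟨x t, t, rfl⟩) hL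
    simp only [ContinuousMap.restrict_apply, ContinuousMap.coe_mk] at h1
    rw [h1]
    exact hσl ⟨x t, t, rfl⟩ t rfl
  -- a bound on the orbit
  obtain ⟨B, hB⟩ : ∃ B : ℝ, ∀ t, |l t| ≤ B := by
    have h1 : IsCompact ((fun z => |L z|) '' range x) := hcomp.image (by fun_prop)
    obtain ⟨B, hB⟩ := h1.bddAbove
    refine ⟨B, fun t => ?_⟩
    rw [← hLx]
    exact hB ⟨x t, ⟨t, rfl⟩, rfl⟩
  obtain ⟨G, hG⟩ : ∃ G : X → ℂ, G = fun z => F z * exp (-(L z * I)) := ⟨_, rfl⟩
  have hGc : ContinuousOn G O := by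
    rw [hG]
    exact hF.mul (by fun_prop)
  have hG1 : ∀ z ∈ O, ‖G z‖ = 1 := by
    intro z hz
    rw [hG]
    simp only
    rw [norm_mul, hF1 z hz, one_mul]
    have : -((L z : ℂ) * I) = ((-L z : ℝ) : ℂ) * I := by push_cast; ring
    rw [this, Complex.norm_exp_ofReal_mul_I]
  obtain ⟨U, hU⟩ : ∃ U : Set X, U = {z | z ∈ O ∧ 0 < (G z).re ∧ |L z| < B + 1} := ⟨_, rfl⟩
  have hUo : IsOpen U := by
    have h1 : IsOpen (O ∩ G ⁻¹' {w | 0 < w.re}) :=
      hGc.isOpen_inter_preimage hO (isOpen_lt continuous_const continuous_re)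
    have h2 : IsOpen {z | |L z| < B + 1} := isOpen_lt (by fun_prop) continuous_const
    have e : U = (O ∩ G ⁻¹' {w | 0 < w.re}) ∩ {z | |L z| < B + 1} := by
      rw [hU]
      ext z
      constructor
      · rintro ⟨a, b, c⟩
        exact ⟨⟨a, b⟩, c⟩
      · rintro ⟨⟨a, b⟩, c⟩
        exact ⟨a, b, c⟩
    rw [e]
    exact h1.inter h2
  refine ⟨U, hUo, ?_, ?_, 2 * (B + 1 + Real.pi), ?_⟩
  · rintro _ ⟨t, rfl⟩
    rw [hU]
    refine ⟨hxO ⟨t, rfl⟩, ?_, ?_⟩
    · rw [hG]
      simp only
      rw [hFl, hLx, ← Complex.exp_add, add_neg_cancel, Complex.exp_zero]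
      simp
    · rw [hLx]
      linarith [hB t]
  · intro z hz
    rw [hU] at hz
    exact hz.1
  intro y r hy hr hyU hFy t ht
  have hyO : ∀ t, 0 ≤ t → y t ∈ O := by
    intro t ht
    have := hyU t ht
    rw [hU] at this
    exact this.1
  -- the angle near the orbit
  obtain ⟨A, hA⟩ : ∃ A : ℝ → ℝ, A = fun t => L (y t) + arg (G (y t)) := ⟨_, rfl⟩
  have hAc : ContinuousOn A (Ici 0) := by
    rw [hA]
    refine (L.continuous.comp_continuousOn hy).add ?_
    intro s hs
    have h1 : ContinuousWithinAt (fun s => G (y s)) (Ici 0) s := by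
      have h2 : ContinuousWithinAt G O (y s) := hGc (y s) (hyO s hs)
      exact ContinuousWithinAt.comp (t := O) h2 (hy s hs) fun u hu => hyO u hu
    have h3 : G (y s) ∈ slitPlane := by
      have := hyU s hs
      rw [hU] at this
      exact Or.inl this.2.1
    exact ContinuousAt.comp_continuousWithinAt (g := arg) (f := fun s => G (y s))
      (continuousAt_arg h3) h1
  have hAe : ∀ s, 0 ≤ s → F (y s) = exp (A s * I) := by
    intro s hs
    have h1 : G (y s) = exp (arg (G (y s)) * I) := by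
      have h2 := Complex.norm_mul_exp_arg_mul_I (G (y s))
      rw [hG1 _ (hyO s hs), Complex.ofReal_one, one_mul] at h2
      exact h2.symm
    have h3 : F (y s) = exp (L (y s) * I) * G (y s) := by
      rw [hG]
      simp only
      rw [mul_left_comm, ← Complex.exp_add, add_neg_cancel, Complex.exp_zero, mul_one]
    rw [h3]
    nth_rewrite 1 [h1]
    rw [← Complex.exp_add, hA]
    simp only
    congr 1
    push_cast
    ring
  have hAb : ∀ s, 0 ≤ s → |A s| ≤ B + 1 + Real.pi := by
    intro s hs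
    rw [hA]
    have h1 := hyU s hs
    rw [hU] at h1
    exact (abs_add_le _ _).trans (add_le_add h1.2.2.le (abs_arg_le_pi _))
  -- the difference is constant
  have hint : ∀ s, 0 ≤ s → ∃ j : ℤ, (r s - A s) / (2 * Real.pi) = j := by
    intro s hs
    have h1 := (hFy s hs).symm.trans (hAe s hs)
    rw [Complex.exp_eq_exp_iff_exists_int] at h1
    obtain ⟨j, hj⟩ := h1
    refine ⟨j, ?_⟩
    have h2 : (r s : ℂ) = A s + j * (2 * Real.pi) := by
      have h3 : (r s : ℂ) * I = (A s + j * (2 * Real.pi)) * I := by rw [hj]; ring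
      exact mul_right_cancel₀ I_ne_zero h3
    have h4 : r s = A s + j * (2 * Real.pi) := by exact_mod_cast h2
    rw [h4]
    have := Real.pi_pos
    field_simp
    ring
  have hcst := const_of_int (h := fun s => (r s - A s) / (2 * Real.pi))
    ((hr.sub hAc).div_const _) hint ht
  have h2 : r t - A t = r 0 - A 0 := by
    have h3 : (2 * Real.pi) ≠ 0 := by positivity
    exact (div_left_inj' h3).1 hcst
  have h3 : r t - r 0 = A t - A 0 := by linarith
  rw [h3]
  refine (abs_sub _ _).trans ?_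
  linarith [hAb t ht, hAb 0 le_rfl]

/-- the mean value of a continuous function with two periods -/
theorem mean_eq {h : ℝ → ℝ} (hc : Continuous h) {P D : ℝ} (hP : 0 < P) (hD : 0 < D)
    (h1 : Function.Periodic h P) (h2 : Function.Periodic h D) (h0 : ∫ s in (0 : ℝ)..P, h s = 0) :
    ∫ s in (0 : ℝ)..D, h s = 0 := by
  have hb : ∀ E : ℝ, 0 < E → Function.Periodic h E → ∃ B : ℝ, ∀ t : ℝ,
      |(∫ s in (0 : ℝ)..t, h s) - t / E * ∫ s in (0 : ℝ)..E, h s| ≤ B := by
    intro E hE hp
    obtain ⟨f, hf⟩ : ∃ f : ℝ → ℝ, f = fun t => (∫ s in (0 : ℝ)..t, h s) -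
      t / E * ∫ s in (0 : ℝ)..E, h s := ⟨_, rfl⟩
    have hfc : Continuous f := by
      rw [hf]
      refine (intervalIntegral.continuous_primitive (fun a b => hc.intervalIntegrable a b) 0).sub ?_
      fun_prop
    have hfp : Function.Periodic f E := by
      intro t
      rw [hf]
      simp only
      have e1 : ∫ s in (0 : ℝ)..(t + E), h s = (∫ s in (0 : ℝ)..t, h s) +
          ∫ s in t..(t + E), h s :=
        (intervalIntegral.integral_add_adjacent_intervals (hc.intervalIntegrable _ _)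
          (hc.intervalIntegrable _ _)).symm
      have e2 : ∫ s in t..(t + E), h s = ∫ s in (0 : ℝ)..E, h s := by
        rw [hp.intervalIntegral_add_eq t 0, zero_add]
      rw [e1, e2]
      field_simp
      ring
    obtain ⟨B, hB⟩ := (hfp.isBounded_of_continuous hE.ne' hfc).exists_norm_le
    refine ⟨B, fun t => ?_⟩
    have := hB (f t) ⟨t, rfl⟩
    rw [hf] at this
    exact this
  obtain ⟨B1, hB1⟩ := hb P hP h1
  obtain ⟨B2, hB2⟩ := hb D hD h2
  by_contra hne
  have h3 : ∀ t : ℝ, |t * ((∫ s in (0 : ℝ)..D, h s) / D)| ≤ B1 + B2 := by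
    intro t
    have h4 := hB1 t
    have h5 := hB2 t
    rw [h0, mul_zero, sub_zero] at h4
    have h6 : t * ((∫ s in (0 : ℝ)..D, h s) / D) = (∫ s in (0 : ℝ)..t, h s) -
        ((∫ s in (0 : ℝ)..t, h s) - t / D * ∫ s in (0 : ℝ)..D, h s) := by ring
    rw [h6]
    refine (abs_sub _ _).trans ?_
    linarith
  obtain ⟨c, hcd⟩ : ∃ c : ℝ, c = (∫ s in (0 : ℝ)..D, h s) / D := ⟨_, rfl⟩
  have hc0 : c ≠ 0 := by
    rw [hcd]
    exact div_ne_zero hne hD.ne'
  have h7 := h3 ((B1 + B2 + 1) / c)
  rw [← hcd, div_mul_cancel₀ _ hc0] at h7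
  have h8 := le_abs_self (B1 + B2 + 1)
  linarith

end Pool.Agent.N601.TL
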