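import Pool.Agent.W821.TB.Final
import Pool.Agent.N601.TL.Lock

set_option autoImplicit false

/-!
The angles by which the mutual position vectors turn.
-/

namespace Pool.Agent.N601.TL

open Complex Set Filter Topology Pool.Agent.W821.TB

variable {n : ℕ} {m : Fin n → ℝ}

/-- the angular velocity of the vector from body `b` to body `a` -/
noncomputable def angVel (a b : Fin n) (z : Ph n) : ℝ := ((z.2 a - z.2 b) / (z.1 a - z.1 b)).im

/-- the angle by which the vector from body `b` to body `a` turns between the times `0` and `t` -/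
noncomputable def turn (y : ℝ → Ph n) (a b : Fin n) (t : ℝ) : ℝ := ∫ s in (0 : ℝ)..t, angVel a b (y s)

/-- the direction of the vector from `b` to `a` -/
noncomputable def un (a b : Fin n) (z : Ph n) : ℂ := (z.1 a - z.1 b) / (‖z.1 a - z.1 b‖ : ℝ)

theorem norm_un {a b : Fin n} {z : Ph n} (h : z.1 a ≠ z.1 b) : ‖un a b z‖ = 1 := by
  unfold un
  have h1 : ‖z.1 a - z.1 b‖ ≠ 0 := norm_ne_zero_iff.2 (sub_ne_zero.2 h)
  rw [norm_div, Complex.norm_real, norm_norm, div_self h1]

theorem contOn {y : ℝ → Ph n} (hy : IsSol m (Ici 0) y) : ContinuousOn y (Ici 0) :=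
  fun t ht => (hy t ht).2.continuousWithinAt

theorem main_turn {y : ℝ → Ph n} (hy : IsSol m (Ici 0) y) {a b : Fin n} (hab : a ≠ b) :
    ContinuousOn (turn y a b) (Ici 0) ∧
    ∀ t, 0 ≤ t → un a b (y t) = un a b (y 0) * exp (turn y a b t * I) := by
  have hne : ∀ t, 0 ≤ t → (y t).1 a - (y t).1 b ≠ 0 := fun t ht =>
    sub_ne_zero.2 ((hy t ht).1.1 a b hab)
  have hmax : Continuous (fun s : ℝ => max s 0) := by fun_prop
  have hymax : Continuous (fun s : ℝ => y (max s 0)) :=
    (contOn hy).comp_continuous hmax fun s => Set.mem_Ici.2 (le_max_right s 0)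
  obtain ⟨g, hg⟩ : ∃ g : ℝ → ℂ, g = fun s => ((y (max s 0)).2 a - (y (max s 0)).2 b) /
      ((y (max s 0)).1 a - (y (max s 0)).1 b) := ⟨_, rfl⟩
  have hgc : Continuous g := by
    rw [hg]
    have c1 : ∀ c : Fin n, Continuous (fun s : ℝ => (y (max s 0)).1 c) := fun c =>
      (continuous_apply c).comp (continuous_fst.comp hymax)
    have c2 : ∀ c : Fin n, Continuous (fun s : ℝ => (y (max s 0)).2 c) := fun c =>
      (continuous_apply c).comp (continuous_snd.comp hymax)
    exact Continuous.div ((c2 a).sub (c2 b)) ((c1 a).sub (c1 b)) fun s => hne _ (le_max_right _ _)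
  obtain ⟨G, hG⟩ : ∃ G : ℝ → ℂ, G = fun t => ∫ s in (0 : ℝ)..t, g s := ⟨_, rfl⟩
  have hGd : ∀ t, HasDerivAt G (g t) t := by
    intro t
    rw [hG]
    exact (hgc.integral_hasStrictDerivAt 0 t).hasDerivAt
  have hGc : Continuous G := continuous_iff_continuousAt.2 fun t => (hGd t).continuousAt
  have hG0 : G 0 = 0 := by rw [hG]; simp
  have him : ∀ t, 0 ≤ t → (G t).im = turn y a b t := by
    intro t ht
    rw [hG]
    simp only
    have h1 := Complex.imCLM.intervalIntegral_comp_comm (μ := MeasureTheory.volume)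
      (hgc.intervalIntegrable 0 t)
    simp only [Complex.imCLM_apply] at h1
    rw [← h1]
    unfold turn
    refine intervalIntegral.integral_congr fun s hs => ?_
    rw [uIcc_of_le ht] at hs
    simp only [hg, angVel, max_eq_left hs.1]
  have hq : ∀ t, 0 ≤ t → (y t).1 a - (y t).1 b = ((y 0).1 a - (y 0).1 b) * exp (G t) := by
    intro t ht
    obtain ⟨φ, hφ⟩ : ∃ φ : ℝ → ℂ, φ = fun s => ((y s).1 a - (y s).1 b) * exp (-G s) := ⟨_, rfl⟩
    have hd : ∀ s ∈ Ico 0 t, HasDerivWithinAt φ 0 (Ici s) s := by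
      intro s hs
      have h1 : HasDerivWithinAt y ((y s).2, acc m (y s).1) (Ici s) s :=
        (hy s hs.1).2.mono (Ici_subset_Ici.2 hs.1)
      have h2 : HasDerivWithinAt (fun s => (y s).1) ((y s).2) (Ici s) s := by
        have h3 := h1.hasFDerivWithinAt.fst.hasDerivWithinAt
        simpa using h3
      have h4 := hasDerivWithinAt_pi.1 h2
      have h5 : HasDerivWithinAt (fun s => (y s).1 a - (y s).1 b) ((y s).2 a - (y s).2 b) (Ici s) s :=
        (h4 a).sub (h4 b)
      have h6 : HasDerivWithinAt (fun s => exp (-G s)) (exp (-G s) * -g s) (Ici s) s :=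
        ((hGd s).neg.cexp).hasDerivWithinAt
      rw [hφ]
      refine (h5.mul h6).congr_deriv ?_
      have h7 := hne s hs.1
      rw [hg]
      simp only [max_eq_left hs.1]
      field_simp
      ring
    have hc : ContinuousOn φ (Icc 0 t) := by
      rw [hφ]
      have h1 : ContinuousOn y (Icc 0 t) := (contOn hy).mono fun s hs => hs.1
      have h2 : ContinuousOn (fun s => (y s).1 a - (y s).1 b) (Icc 0 t) := by fun_prop
      exact h2.mul (by fun_prop)
    have h8 := constant_of_has_deriv_right_zero hc hd t ⟨ht, le_rfl⟩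
    rw [hφ] at h8
    simp only [hG0, neg_zero, Complex.exp_zero, mul_one] at h8
    rw [← h8, mul_assoc, ← Complex.exp_add, neg_add_cancel, Complex.exp_zero, mul_one]
  refine ⟨?_, fun t ht => ?_⟩
  · have h1 : ContinuousOn (fun t => (G t).im) (Ici 0) := by fun_prop
    exact h1.congr fun t ht => (him t ht).symm
  · rw [← him t ht]
    unfold un
    rw [hq t ht, norm_mul, Complex.norm_exp]
    have h1 := hne 0 le_rfl
    have h2 : (‖(y 0).1 a - (y 0).1 b‖ : ℂ) ≠ 0 := by
      exact_mod_cast norm_ne_zero_iff.2 h1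
    have h3 : exp (G t) = (Real.exp (G t).re : ℝ) * exp ((G t).im * I) := by
      rw [Complex.ofReal_exp, ← Complex.exp_add, Complex.re_add_im]
    rw [h3]
    have h4 : ((Real.exp (G t).re : ℝ) : ℂ) ≠ 0 := by
      exact_mod_cast (Real.exp_pos _).ne'
    push_cast
    push_cast at h4
    field_simp

theorem cont_angVel {x : ℝ → Ph n} (hx : IsSol m univ x) {a b : Fin n} (hab : a ≠ b) :
    Continuous (fun s => angVel a b (x s)) := by
  have hxc := hx.continuous
  have h1 : Continuous (fun s => ((x s).2 a - (x s).2 b) / ((x s).1 a - (x s).1 b)) :=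
    Continuous.div (by fun_prop) (by fun_prop) fun s => sub_ne_zero.2 ((hx.mem s).1 a b hab)
  exact Complex.continuous_im.comp h1

theorem turn_zero (y : ℝ → Ph n) (a b : Fin n) : turn y a b 0 = 0 := by
  unfold turn
  simp

/-- the winding numbers of a periodic solution -/
theorem winding {x : ℝ → Ph n} (hx : IsSol m univ x) {P : ℝ} (hP : 0 < P)
    (hper : ∀ t, x (t + P) = x t) {a b : Fin n} (hab : a ≠ b) :
    ∃ w : ℤ, turn x a b P = 2 * Real.pi * w := by
  have h1 := (main_turn (hx.restrict (Ici 0)) hab).2 P hP.le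
  have h2 : x P = x 0 := by
    have := hper 0
    rwa [zero_add] at this
  rw [h2] at h1
  have h3 : un a b (x 0) ≠ 0 := by
    intro h
    have := norm_un ((hx.mem 0).1 a b hab)
    rw [h, norm_zero] at this
    exact zero_ne_one this
  have h4 : exp (turn x a b P * I) = 1 := by
    have : un a b (x 0) * exp (turn x a b P * I) = un a b (x 0) * 1 := by rw [← h1, mul_one]
    exact mul_left_cancel₀ h3 this
  obtain ⟨w, hw⟩ := Complex.exp_eq_one_iff.1 h4
  refine ⟨w, ?_⟩
  have h5 : (turn x a b P : ℂ) = 2 * Real.pi * w := by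
    have : (turn x a b P : ℂ) * I = (2 * Real.pi * w) * I := by rw [hw]; ring
    exact mul_right_cancel₀ I_ne_zero this
  exact_mod_cast h5

theorem cont_un {a b : Fin n} {z : Ph n} (h : z.1 a ≠ z.1 b) : ContinuousAt (un a b) z := by
  unfold un
  have h1 : ((‖z.1 a - z.1 b‖ : ℝ) : ℂ) ≠ 0 := by
    exact_mod_cast norm_ne_zero_iff.2 (sub_ne_zero.2 h)
  exact ContinuousAt.div (by fun_prop) (by fun_prop) h1

/-- the main step for two pairs -/
theorem pair_lock {x : ℝ → Ph n} (hx : IsSol m univ x) {P : ℝ} (hP : 0 < P)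
    (hper : ∀ t, x (t + P) = x t) (hst : LyapunovStable m (range x)) {a b c d : Fin n} (hab : a ≠ b)
    (hcd : c ≠ d) {p q : ℤ} (hpq : p * turn x a b P = q * turn x c d P) :
    ∃ U : Set (Ph n), IsOpen U ∧ range x ⊆ U ∧ ∃ C : ℝ, ∀ y : ℝ → Ph n, IsSol m (Ici 0) y →
      y 0 ∈ U → ∀ t, 0 ≤ t → |p * turn y a b t - q * turn y c d t| ≤ C := by
  obtain ⟨O, hO⟩ : ∃ O : Set (Ph n), O = {z | z.1 a ≠ z.1 b ∧ z.1 c ≠ z.1 d} := ⟨_, rfl⟩
  have hOo : IsOpen O := by
    rw [hO]
    exact (isOpen_ne_fun (by fun_prop) (by fun_prop)).inter (isOpen_ne_fun (by fun_prop) (by fun_prop))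
  obtain ⟨F, hF⟩ : ∃ F : Ph n → ℂ, F = fun z => un a b z ^ p * un c d z ^ (-q) := ⟨_, rfl⟩
  have hun0 : ∀ {a b : Fin n} {z : Ph n}, z.1 a ≠ z.1 b → un a b z ≠ 0 := by
    intro a b z h h1
    have := norm_un h
    rw [h1, norm_zero] at this
    exact zero_ne_one this
  have hFc : ContinuousOn F O := by
    intro z hz
    rw [hO] at hz
    rw [hF]
    exact ((cont_un hz.1).zpow₀ p (Or.inl (hun0 hz.1))).mul
      ((cont_un hz.2).zpow₀ (-q) (Or.inl (hun0 hz.2))) |>.continuousWithinAt
  have hF1 : ∀ z ∈ O, ‖F z‖ = 1 := by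
    intro z hz
    rw [hO] at hz
    rw [hF]
    simp only
    rw [norm_mul, norm_zpow, norm_zpow, norm_un hz.1, norm_un hz.2, one_zpow, one_zpow, one_mul]
  -- the values of F along a solution
  have hFy : ∀ y : ℝ → Ph n, IsSol m (Ici 0) y → ∀ t, 0 ≤ t →
      F (y t) = F (y 0) * exp ((p * turn y a b t - q * turn y c d t : ℝ) * I) := by
    intro y hy t ht
    rw [hF]
    simp only
    rw [(main_turn hy hab).2 t ht, (main_turn hy hcd).2 t ht, mul_zpow, mul_zpow, ← Complex.exp_int_mul,
      ← Complex.exp_int_mul]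
    have e : exp ((p * turn y a b t - q * turn y c d t : ℝ) * I) =
        exp (p * (turn y a b t * I)) * exp (((-q : ℤ) : ℂ) * (turn y c d t * I)) := by
      rw [← Complex.exp_add]
      congr 1
      push_cast
      ring
    rw [e]
    ring
  have hyO : ∀ y : ℝ → Ph n, IsSol m (Ici 0) y → ∀ t, 0 ≤ t → y t ∈ O := by
    intro y hy t ht
    rw [hO]
    exact ⟨(hy t ht).1.1 a b hab, (hy t ht).1.1 c d hcd⟩
  have hxO : range x ⊆ O := by
    rintro _ ⟨t, rfl⟩
    rw [hO]
    exact ⟨(hx.mem t).1 a b hab, (hx.mem t).1 c d hcd⟩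
  -- the angle along x
  obtain ⟨H, hH⟩ : ∃ H : ℝ → ℝ, H = fun s => p * angVel a b (x s) - q * angVel c d (x s) := ⟨_, rfl⟩
  have hHc : Continuous H := by
    rw [hH]
    exact (continuous_const.mul (cont_angVel hx hab)).sub (continuous_const.mul (cont_angVel hx hcd))
  have hHper : ∀ D : ℝ, (∀ t, x (t + D) = x t) → Function.Periodic H D := by
    intro D hD t
    rw [hH]
    simp only [hD t]
  obtain ⟨l0, hl0⟩ : ∃ l0 : ℝ → ℝ, l0 = fun t => ∫ s in (0 : ℝ)..t, H s := ⟨_, rfl⟩
  have hl0c : Continuous l0 := by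
    rw [hl0]
    exact intervalIntegral.continuous_primitive (fun a b => hHc.intervalIntegrable a b) 0
  have hl0t : ∀ t, l0 t = p * turn x a b t - q * turn x c d t := by
    intro t
    rw [hl0, hH]
    unfold turn
    simp only
    have i1 : IntervalIntegrable (fun s => (p : ℝ) * angVel a b (x s)) MeasureTheory.volume 0 t :=
      (continuous_const.mul (cont_angVel hx hab)).intervalIntegrable _ _
    have i2 : IntervalIntegrable (fun s => (q : ℝ) * angVel c d (x s)) MeasureTheory.volume 0 t :=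
      (continuous_const.mul (cont_angVel hx hcd)).intervalIntegrable _ _
    rw [intervalIntegral.integral_sub i1 i2,
      intervalIntegral.integral_const_mul, intervalIntegral.integral_const_mul]
  have hP0 : ∫ s in (0 : ℝ)..P, H s = 0 := by
    have h1 := hl0t P
    rw [hl0] at h1
    simp only at h1
    rw [h1, hpq, sub_self]
  have hadd : ∀ D : ℝ, Function.Periodic H D → (∫ s in (0 : ℝ)..D, H s = 0) → ∀ t,
      l0 (t + D) = l0 t := by
    intro D hD hD0 t
    rw [hl0]
    simp only
    rw [← intervalIntegral.integral_add_adjacent_intervals (hHc.intervalIntegrable 0 t)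
      (hHc.intervalIntegrable t (t + D)), hD.intervalIntegral_add_eq t 0, zero_add, hD0, add_zero]
  have hl0P : Function.Periodic l0 P := hadd P (hHper P hper) hP0
  have hinj : ∀ t t', x t = x t' → l0 t = l0 t' := by
    have key : ∀ t t', t < t' → x t = x t' → l0 t = l0 t' := by
      intro t t' htt h
      have h1 : (fun s => x (s + (t' - t))) = x := by
        refine sol_unique (hx.shift _) hx (t₀ := t) ?_
        show x (t + (t' - t)) = x t
        rw [add_sub_cancel, h]
      have h2 : ∀ s, x (s + (t' - t)) = x s := fun s => congrFun h1 s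
      have h3 := mean_eq hHc hP (sub_pos.2 htt) (hHper P hper) (hHper _ h2) hP0
      have h4 := hadd (t' - t) (hHper _ h2) h3 t
      rw [add_sub_cancel] at h4
      exact h4.symm
    intro t t' h
    rcases lt_trichotomy t t' with h1 | h1 | h1
    · exact key t t' h1 h
    · rw [h1]
    · exact (key t' t h1 h.symm).symm
  obtain ⟨φ, hφ⟩ := exists_angle (hF1 (x 0) (hxO ⟨0, rfl⟩))
  have hFx : ∀ t, F (x t) = exp (((φ + l0 t : ℝ) : ℂ) * I) := by
    intro t
    obtain ⟨N, hN⟩ := exists_nat_ge (-t / P)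
    have h1 : 0 ≤ t + N * P := by
      rw [div_le_iff₀ hP] at hN
      linarith
    have hxp : Function.Periodic x P := hper
    have h2 : x (t + N * P) = x t := hxp.nat_mul N t
    have h3 : l0 (t + N * P) = l0 t := hl0P.nat_mul N t
    have h4 := hFy x (hx.restrict _) _ h1
    rw [← hl0t, h2, h3, hφ] at h4
    rw [h4, ← Complex.exp_add]
    congr 1
    push_cast
    ring
  obtain ⟨U, hU, hxU, -, C, hC⟩ := lock hx.continuous hP hper hOo hxO hFc hF1
    (l := fun t => φ + l0 t) (continuous_const.add hl0c) hFx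
    (fun t t' h => by rw [hinj t t' h])
  obtain ⟨U₂, hU₂, hxU₂, hstay⟩ := hst U hU hxU
  refine ⟨U₂, hU₂, hxU₂, C, fun y hy hy0 t ht => ?_⟩
  obtain ⟨ψ, hψ⟩ := exists_angle (hF1 (y 0) (hyO y hy 0 le_rfl))
  have h1 := hC y (fun t => ψ + (p * turn y a b t - q * turn y c d t)) (contOn hy)
    (continuousOn_const.add ((continuousOn_const.mul (main_turn hy hab).1).sub
      (continuousOn_const.mul (main_turn hy hcd).1))) (fun t ht => hstay y hy hy0 t ht)
    (fun t ht => by
      rw [hFy y hy t ht, hψ, ← Complex.exp_add]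
      congr 1
      push_cast
      ring) t ht
  simp only [turn_zero, mul_zero, sub_zero, add_zero] at h1
  have h2 : ψ + (p * turn y a b t - q * turn y c d t) - ψ = p * turn y a b t - q * turn y c d t := by
    ring
  rwa [h2] at h1

end Pool.Agent.N601.TL
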